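import Pool.Agent.H.MP_5d027a_an.C

namespace Pool.Agent.Results.MP_5d027a_an.Yes

/-- No nonempty proper closed invariant subset. -/
def IsMinimalSystem {X : Type} [MetricSpace X] (T : X ≃ₜ X) : Prop :=
  ∀ A : Set X, IsClosed A → T '' A = A → A.Nonempty → A = Set.univ

/-- Furstenberg disjointness. -/
def Disjoint' {X Y : Type} [MetricSpace X] [MetricSpace Y] (T : X ≃ₜ X) (S : Y ≃ₜ Y) : Prop :=
  ∀ J : Set (X × Y), IsClosed J → (fun p : X × Y => (T p.1, S p.2)) '' J = J →
    Prod.fst '' J = Set.univ → Prod.snd '' J = Set.univ → J = Set.univ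

/-- Disjoint from every minimal system. -/
def DisjointFromMinimal {X : Type} [MetricSpace X] (T : X ≃ₜ X) : Prop :=
  ∀ (Z : Type) [MetricSpace Z] [CompactSpace Z] [Nonempty Z] (R : Z ≃ₜ Z),
    IsMinimalSystem R → Disjoint' T R

theorem result (X Y : Type) [MetricSpace X] [CompactSpace X] [Nonempty X]
    [MetricSpace Y] [CompactSpace Y] [Nonempty Y] (T : X ≃ₜ X) (S : Y ≃ₜ Y)
    (hX : DisjointFromMinimal T) (hY : DisjointFromMinimal S) :
    DisjointFromMinimal (T.prodCongr S) :=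
  Pool.Agent.H.MP_5d027a_an.main hX hY

end Pool.Agent.Results.MP_5d027a_an.Yes
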